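import Pool.Agent.H195R3.Example

/-!
# Definable images of D_Sigma sets in restrained structures: a counterexample over the reals
-/

set_option autoImplicit false

open FirstOrder Set

namespace Pool.Agent.Results.MP_ec0437_lc.OntoPlane

variable (K : Type) [Field K] [LinearOrder K] [TopologicalSpace K]
  (L : FirstOrder.Language.{0, 0}) [L.Structure K]

/-- `X ⊆ K^n` is definable in the `L`-structure `K` with parameters from `K`. -/
def Def {n : ℕ} (X : Set (Fin n → K)) : Prop := (Set.univ : Set K).Definable L X

/-- The addition, the multiplication and the order of `K` are definable in the structure. -/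
def ExpandsOrderedField : Prop :=
  Def K L {v : Fin 3 → K | v 0 + v 1 = v 2} ∧ Def K L {v : Fin 3 → K | v 0 * v 1 = v 2} ∧
    Def K L {v : Fin 2 → K | v 0 ≤ v 1}

/-- Definable completeness: each definable subset of `K` has a least upper bound in
`K ∪ {-∞, ∞}`, that is, each nonempty bounded definable subset has one in `K`. -/
def DefinablyComplete : Prop :=
  ∀ X : Set K, Def K L {v : Fin 1 → K | v 0 ∈ X} → X.Nonempty → BddAbove X → ∃ s : K, IsLUB X s

/-- The graph, in `K^(m+n)`, of the map `f` restricted to `C ⊆ K^m`. -/
def graphOn {m n : ℕ} (C : Set (Fin m → K)) (f : (Fin m → K) → (Fin n → K)) :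
    Set (Fin (m + n) → K) :=
  {v | (fun i => v (Fin.castAdd n i)) ∈ C ∧
    f (fun i => v (Fin.castAdd n i)) = fun j => v (Fin.natAdd m j)}

/-- The map `f` on the definable set `C` is definable. -/
def DefMap {m n : ℕ} (C : Set (Fin m → K)) (f : (Fin m → K) → (Fin n → K)) : Prop :=
  Def K L C ∧ Def K L (graphOn K C f)

/-- Restrained: definable functions map definable discrete sets to nowhere dense sets. -/
def Restrained : Prop :=
  ∀ (n : ℕ) (D : Set (Fin n → K)) (g : (Fin n → K) → (Fin 1 → K)), DefMap K L D g →
    DiscreteTopology D → IsNowhereDense ((fun x => g x 0) '' D)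

/-- `X` is the projection of a definable closed set in one more variable. -/
def DSigma {m : ℕ} (X : Set (Fin m → K)) : Prop :=
  ∃ Y : Set (Fin (m + 1) → K), Def K L Y ∧ IsClosed Y ∧
    X = (fun z : Fin (m + 1) → K => fun j : Fin m => z (Fin.castSucc j)) '' Y

open Classical in
/-- The topological dimension of `X ⊆ K^n`: the largest size of a set `S` of coordinates for
which the projection of `X` to the coordinates in `S` has nonempty interior. -/
noncomputable def dim {n : ℕ} (X : Set (Fin n → K)) : WithBot ℕ :=
  (Finset.univ.filter fun S : Finset (Fin n) =>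
    (interior ((fun x : Fin n → K => fun i : S => x i) '' X)).Nonempty).sup
      fun S => ((S.card : ℕ) : WithBot ℕ)

/-- The question: images of D_Sigma sets under definable maps do not have larger dimension. -/
def ImageDimLe : Prop :=
  ∀ (m n : ℕ) (C : Set (Fin m → K)) (f : (Fin m → K) → (Fin n → K)),
    DSigma K L C → DefMap K L C f → dim K (f '' C) ≤ dim K C

lemma dim_univ {n : ℕ} : dim ℝ (Set.univ : Set (Fin n → ℝ)) = (n : WithBot ℕ) := by
  classical
  unfold dim
  apply le_antisymm
  · apply Finset.sup_le
    intro S _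
    have : S.card ≤ n := by simpa using Finset.card_le_univ S
    exact_mod_cast this
  · have h : (Finset.univ : Finset (Fin n)) ∈ (Finset.univ.filter fun S : Finset (Fin n) =>
        (interior ((fun x : Fin n → ℝ => fun i : S => x i) '' (Set.univ : Set (Fin n → ℝ)))).Nonempty) := by
      simp only [Finset.mem_filter, Finset.mem_univ, true_and]
      have : (fun x : Fin n → ℝ => fun i : (Finset.univ : Finset (Fin n)) => x i) ''
          (Set.univ : Set (Fin n → ℝ)) = Set.univ := by
        ext y
        simp only [Set.image_univ, Set.mem_range, Set.mem_univ, iff_true]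
        exact ⟨fun i => y ⟨i, Finset.mem_univ i⟩, rfl⟩
      rw [this, interior_univ]
      exact Set.univ_nonempty
    have := Finset.le_sup (f := fun S : Finset (Fin n) => ((S.card : ℕ) : WithBot ℕ)) h
    simpa using this

/-- There is an expansion of the ordered field of real numbers (by one function on the line) that
is definably complete and restrained and in which some definable map sends the line onto the
plane; so the answer to the question is negative, even for expansions of the real field. -/
theorem result :
    (∃ (L : FirstOrder.Language.{0, 0}) (_ : L.Structure ℝ), ExpandsOrderedField ℝ L ∧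
      DefinablyComplete ℝ L ∧ Restrained ℝ L ∧
      (∃ f : (Fin 1 → ℝ) → (Fin 2 → ℝ), DefMap ℝ L Set.univ f ∧ DSigma ℝ L (Set.univ : Set (Fin 1 → ℝ)) ∧
        f '' Set.univ = Set.univ ∧ dim ℝ (Set.univ : Set (Fin 1 → ℝ)) = 1 ∧
        dim ℝ (f '' Set.univ) = 2)) ∧
    ¬ (∀ (K : Type) [Field K] [LinearOrder K] [IsStrictOrderedRing K] [TopologicalSpace K]
        [OrderTopology K] (L : FirstOrder.Language.{0, 0}) [L.Structure K],
        ExpandsOrderedField K L → DefinablyComplete K L → Restrained K L → ImageDimLe K L) := by
  have key : ∃ (L : FirstOrder.Language.{0, 0}) (_ : L.Structure ℝ), ExpandsOrderedField ℝ L ∧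
      DefinablyComplete ℝ L ∧ Restrained ℝ L ∧
      (∃ f : (Fin 1 → ℝ) → (Fin 2 → ℝ), DefMap ℝ L Set.univ f ∧ DSigma ℝ L (Set.univ : Set (Fin 1 → ℝ)) ∧
        f '' Set.univ = Set.univ ∧ dim ℝ (Set.univ : Set (Fin 1 → ℝ)) = 1 ∧
        dim ℝ (f '' Set.univ) = 2) := by
    obtain ⟨f, hf⟩ := Pool.Agent.H195R3.exists_generic
    let _ := Pool.Agent.H195R3.str f
    have hsurj : (fun (x : Fin 1 → ℝ) => ![f (x 0), f (x 0 + 1)]) '' Set.univ = Set.univ := by
      ext y
      simp only [Set.image_univ, Set.mem_range, Set.mem_univ, iff_true]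
      obtain ⟨x, h1, h2⟩ := Pool.Agent.H195R3.gen_surj hf (y 0) (y 1)
      refine ⟨fun _ => x, ?_⟩
      funext i
      fin_cases i
      · exact h1
      · exact h2
    refine ⟨Pool.Agent.H195R3.Lf, Pool.Agent.H195R3.str f,
      ⟨Pool.Agent.H195R3.def_add f 0 1 2, Pool.Agent.H195R3.def_mul f 0 1 2,
        Pool.Agent.H195R3.def_le f 0 1⟩, fun X _ h1 h2 => Real.exists_isLUB h1 h2, ?_,
        fun x => ![f (x 0), f (x 0 + 1)], ?_, ?_, hsurj, ?_, ?_⟩
    · intro n D g hg hD
      refine Pool.Agent.H195R3.finite_nowhereDense
        (Pool.Agent.H195R3.restrained hf n D (fun x => g x 0) hD ?_)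
      refine (congrArg (fun s => @Set.Definable ℝ (Set.univ : Set ℝ) Pool.Agent.H195R3.Lf
        (Pool.Agent.H195R3.str f) (Fin (n + 1)) s) ?_).mp hg.2
      ext v
      simp only [graphOn, Set.mem_ofPred_eq]
      constructor
      · rintro ⟨h1, h2⟩
        exact ⟨h1, congrFun h2 0⟩
      · rintro ⟨h1, h2⟩
        refine ⟨h1, ?_⟩
        funext j
        have : j = 0 := Subsingleton.elim _ _
        subst this
        exact h2
    · refine ⟨?_, ?_⟩
      · exact Set.definable_univ
      · refine (congrArg (fun s => @Set.Definable ℝ (Set.univ : Set ℝ) Pool.Agent.H195R3.Lf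
          (Pool.Agent.H195R3.str f) (Fin 3) s) ?_).mp (Pool.Agent.H195R3.def_graph f)
        ext v
        simp only [graphOn, Set.mem_ofPred_eq, Set.mem_univ, true_and]
        constructor
        · rintro ⟨h1, h2⟩
          funext j
          fin_cases j
          · exact h1
          · exact h2
        · intro h
          exact ⟨congrFun h 0, congrFun h 1⟩
    · refine ⟨Set.univ, Set.definable_univ, isClosed_univ, ?_⟩
      ext y
      simp only [Set.image_univ, Set.mem_range, Set.mem_univ, true_iff]
      exact ⟨Fin.snoc y 0, by funext i; simp⟩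
    · exact dim_univ
    · rw [hsurj]; exact dim_univ
  refine ⟨key, ?_⟩
  intro H
  obtain ⟨L, inst, h1, h2, h3, f, hf, hC, -, hd1, hd2⟩ := key
  have := H ℝ L h1 h2 h3 1 2 Set.univ f hC hf
  rw [hd1, hd2] at this
  exact absurd this (by decide)

end Pool.Agent.Results.MP_ec0437_lc.OntoPlane
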